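import Mathlib

/-!
Branch and bound over the cell `[0,1/2] × [0,1/2]` of centres, carried out by kernel evaluation.
All coordinates are scaled by `2048`; the squared radius `28561/8` becomes `28561 * 2^19`.
-/

set_option autoImplicit false

namespace Pool.Agent.Lib.MP_c7ed95_nt

/-- Staircase walk: a lower bound for the number of pairs `(i, j')`, `i < fuel`, `j' < j`, with
`(a + s i)^2 + (B + s j')^2 < RR`. -/
def walk (RR s B : ℕ) : ℕ → ℕ → ℕ → ℕ
  | 0, _, _ => 0
  | _+1, _, 0 => 0
  | fuel+1, a, (j+1) =>
    cond (Nat.ble (a*a + (B + s*j)*(B+s*j) + 1) RR)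
      ((j+1) + walk RR s B fuel (a+s) (j+1)) (walk RR s B fuel a j)

/-- The scaled squared radius. -/
def RR : ℕ := 28561 * 2^19

/-- Number of lattice points certified to lie inside every circle with centre in the box
`[X0/2048, X1/2048] × [Y0/2048, Y1/2048]` and squared radius `28561/8`. -/
def tot (X0 X1 Y0 Y1 : ℕ) : ℕ :=
  walk RR 2048 (2048-Y0) 130 (2048-X0) 61 + (walk RR 2048 Y1 130 (2048-X0) 61 +
  (walk RR 2048 (2048-Y0) 130 X1 61 + walk RR 2048 Y1 130 X1 61))

/-- The box lies in the small box around the centre `(1/4, 1/4)`. -/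
def central (X0 X1 Y0 Y1 : ℕ) : Bool :=
  Nat.ble 508 X0 && Nat.ble X1 516 && Nat.ble 508 Y0 && Nat.ble Y1 516

/-- Branch and bound with depth `k`. -/
def check : ℕ → ℕ → ℕ → ℕ → Bool
  | 0, X, Y, w => central X (X+w) Y (Y+w) || Nat.ble 11204 (tot X (X+w) Y (Y+w))
  | k+1, X, Y, w =>
     central X (X+w) Y (Y+w) || Nat.ble 11204 (tot X (X+w) Y (Y+w)) ||
       (check k X Y (w/2) && check k (X+w/2) Y (w/2) && check k X (Y+w/2) (w/2) &&
        check k (X+w/2) (Y+w/2) (w/2))

set_option maxRecDepth 100000 in
theorem check_true : check 10 0 0 1024 = true := by decide +kernel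

set_option maxRecDepth 100000 in
theorem tot_central : Nat.ble 11202 (tot 508 516 508 516) = true := by decide +kernel

/-- The count of the pairs `(i, j')`. -/
def K (RR s B fuel a j : ℕ) : ℕ :=
  ∑ i ∈ Finset.range fuel,
    ((Finset.range j).filter (fun j' => (a + s*i)^2 + (B + s*j')^2 < RR)).card

theorem K_mono_j (RR s B fuel a : ℕ) {j j' : ℕ} (h : j ≤ j') :
    K RR s B fuel a j ≤ K RR s B fuel a j' := by
  unfold K
  apply Finset.sum_le_sum
  intro i _
  apply Finset.card_le_card
  apply Finset.filter_subset_filter
  exact Finset.range_mono h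

theorem K_mono_fuel (RR s B a j : ℕ) {f f' : ℕ} (h : f ≤ f') :
    K RR s B f a j ≤ K RR s B f' a j := by
  unfold K
  apply Finset.sum_le_sum_of_subset
  exact Finset.range_mono h

theorem walk_le (RR s B : ℕ) : ∀ (fuel a j : ℕ), walk RR s B fuel a j ≤ K RR s B fuel a j
  | 0, a, j => by simp [walk]
  | fuel+1, a, 0 => by simp [walk]
  | fuel+1, a, (j+1) => by
    rw [walk]
    cases hb : Nat.ble (a*a + (B + s*j)*(B+s*j) + 1) RR with
    | false =>
      simp only [cond_false]
      exact (walk_le RR s B fuel a j).trans
        ((K_mono_j RR s B fuel a (Nat.le_succ j)).trans (K_mono_fuel RR s B a (j+1) (Nat.le_succ fuel)))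
    | true =>
      simp only [cond_true]
      have hlt : a*a + (B + s*j)*(B+s*j) + 1 ≤ RR := Nat.le_of_ble_eq_true hb
      have ih := walk_le RR s B fuel (a+s) (j+1)
      have hK : K RR s B (fuel+1) a (j+1) = K RR s B fuel (a+s) (j+1) + (j+1) := by
        unfold K
        rw [Finset.sum_range_succ']
        congr 1
        · apply Finset.sum_congr rfl
          intro i _
          congr 1
          apply Finset.filter_congr
          intro j' _
          have : a + s*(i+1) = a + s + s*i := by ring
          rw [this]
        · rw [Finset.filter_true_of_mem, Finset.card_range]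
          intro j' hj'
          have hj : j' ≤ j := by
            have := Finset.mem_range.mp hj'
            omega
          have h1 : B + s*j' ≤ B + s*j := by
            have := Nat.mul_le_mul_left s hj
            omega
          have h2 : (B + s*j')^2 ≤ (B+s*j)*(B+s*j) := by
            rw [pow_two]; exact Nat.mul_le_mul h1 h1
          have h3 : (a + s*0)^2 = a*a := by ring
          rw [h3]
          omega
      rw [hK]
      omega

end Pool.Agent.Lib.MP_c7ed95_nt
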