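import Mathlib
import Pool.Agent.Lib.MP_c7ed95_nt.Check

/-!
From the kernel computation to statements about real centres.
-/

set_option autoImplicit false
set_option maxRecDepth 20000

namespace Pool.Agent.Lib.MP_c7ed95_nt

/-- The index set of one quadrant. -/
def quadSet (A B : ℕ) : Finset (ℕ × ℕ) :=
  ((Finset.range 130) ×ˢ (Finset.range 61)).filter
    (fun p => (A + 2048*p.1)^2 + (B + 2048*p.2)^2 < RR)

theorem K_eq_card (A B : ℕ) : K RR 2048 B 130 A 61 = (quadSet A B).card := by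
  unfold K quadSet
  rw [Finset.card_filter, Finset.sum_product]
  apply Finset.sum_congr rfl
  intro i _
  rw [Finset.card_filter]

theorem walk_le_card (A B : ℕ) : walk RR 2048 B 130 A 61 ≤ (quadSet A B).card := by
  rw [← K_eq_card]
  exact walk_le RR 2048 B 130 A 61

/-- The four maps of a quadrant to lattice points. -/
def m1 (p : ℕ × ℕ) : ℤ × ℤ := ((p.1 : ℤ) + 1, (p.2 : ℤ) + 1)
def m2 (p : ℕ × ℕ) : ℤ × ℤ := ((p.1 : ℤ) + 1, -(p.2 : ℤ))
def m3 (p : ℕ × ℕ) : ℤ × ℤ := (-(p.1 : ℤ), (p.2 : ℤ) + 1)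
def m4 (p : ℕ × ℕ) : ℤ × ℤ := (-(p.1 : ℤ), -(p.2 : ℤ))

theorem m1_inj : Function.Injective m1 := by
  rintro ⟨a, b⟩ ⟨c, d⟩ h
  simp only [m1, Prod.mk.injEq] at h
  ext <;> simp <;> omega

theorem m2_inj : Function.Injective m2 := by
  rintro ⟨a, b⟩ ⟨c, d⟩ h
  simp only [m2, Prod.mk.injEq] at h
  ext <;> simp <;> omega

theorem m3_inj : Function.Injective m3 := by
  rintro ⟨a, b⟩ ⟨c, d⟩ h
  simp only [m3, Prod.mk.injEq] at h
  ext <;> simp <;> omega

theorem m4_inj : Function.Injective m4 := by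
  rintro ⟨a, b⟩ ⟨c, d⟩ h
  simp only [m4, Prod.mk.injEq] at h
  ext <;> simp <;> omega

/-- The certified set of lattice points of a box. -/
def boxSet (X0 X1 Y0 Y1 : ℕ) : Finset (ℤ × ℤ) :=
  ((quadSet (2048-X0) (2048-Y0)).image m1 ∪ (quadSet (2048-X0) Y1).image m2) ∪
  ((quadSet X1 (2048-Y0)).image m3 ∪ (quadSet X1 Y1).image m4)

theorem tot_le_card (X0 X1 Y0 Y1 : ℕ) : tot X0 X1 Y0 Y1 ≤ (boxSet X0 X1 Y0 Y1).card := by
  unfold boxSet
  rw [Finset.card_union_of_disjoint, Finset.card_union_of_disjoint,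
    Finset.card_union_of_disjoint, Finset.card_image_of_injective _ m1_inj,
    Finset.card_image_of_injective _ m2_inj, Finset.card_image_of_injective _ m3_inj,
    Finset.card_image_of_injective _ m4_inj]
  · have h1 := walk_le_card (2048-X0) (2048-Y0)
    have h2 := walk_le_card (2048-X0) Y1
    have h3 := walk_le_card X1 (2048-Y0)
    have h4 := walk_le_card X1 Y1
    unfold tot
    omega
  · rw [Finset.disjoint_left]
    intro P hP hP'
    simp only [Finset.mem_image] at hP hP'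
    obtain ⟨p, _, rfl⟩ := hP
    obtain ⟨q, _, hq⟩ := hP'
    simp only [m3, m4, Prod.mk.injEq] at hq
    omega
  · rw [Finset.disjoint_left]
    intro P hP hP'
    simp only [Finset.mem_image] at hP hP'
    obtain ⟨p, _, rfl⟩ := hP
    obtain ⟨q, _, hq⟩ := hP'
    simp only [m1, m2, Prod.mk.injEq] at hq
    omega
  · rw [Finset.disjoint_left]
    intro P hP hP'
    simp only [Finset.mem_image, Finset.mem_union] at hP hP'
    rcases hP with ⟨p, _, rfl⟩ | ⟨p, _, rfl⟩ <;> rcases hP' with ⟨q, _, hq⟩ | ⟨q, _, hq⟩ <;>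
      simp only [m1, m2, m3, m4, Prod.mk.injEq] at hq <;> omega

theorem key_ineq {A B i j : ℕ} {u v : ℝ} (h : (A + 2048*i)^2 + (B + 2048*j)^2 < RR)
    (hu0 : 0 ≤ u) (hv0 : 0 ≤ v) (hu : 2048 * u ≤ (A:ℝ) + 2048 * i)
    (hv : 2048 * v ≤ (B:ℝ) + 2048*j) : u^2 + v^2 < 28561/8 := by
  have h' : ((A:ℝ) + 2048*i)^2 + ((B:ℝ) + 2048*j)^2 < 28561 * 2^19 := by
    have h0 : (((A + 2048*i)^2 + (B + 2048*j)^2 : ℕ) : ℝ) < ((RR : ℕ) : ℝ) :=
      Nat.cast_lt.mpr h
    have h1 : ((RR : ℕ) : ℝ) = 28561 * 2^19 := by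
      unfold RR; norm_num
    rw [h1] at h0
    rw [Nat.cast_add, Nat.cast_pow, Nat.cast_pow, Nat.cast_add, Nat.cast_add, Nat.cast_mul,
      Nat.cast_mul] at h0
    exact h0
  have h1 : (2048*u)^2 ≤ ((A:ℝ) + 2048*i)^2 := by
    apply pow_le_pow_left₀ (by positivity) hu
  have h2 : (2048*v)^2 ≤ ((B:ℝ) + 2048*j)^2 := by
    apply pow_le_pow_left₀ (by positivity) hv
  nlinarith

theorem boxSet_inside {X0 X1 Y0 Y1 : ℕ} (hX0 : X0 ≤ 2048) (hX1 : X1 ≤ 2048)
    (hY0 : Y0 ≤ 2048) (hY1 : Y1 ≤ 2048) {x y : ℝ} (hx0 : (X0:ℝ) ≤ 2048*x)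
    (hx1 : 2048 * x ≤ X1) (hy0 : (Y0:ℝ) ≤ 2048*y) (hy1 : 2048*y ≤ Y1)
    {P : ℤ × ℤ} (hP : P ∈ boxSet X0 X1 Y0 Y1) :
    ((P.1:ℝ) - x)^2 + ((P.2:ℝ) - y)^2 < 28561/8 := by
  have hX1' : (X1:ℝ) ≤ 2048 := by exact_mod_cast hX1
  have hY1' : (Y1:ℝ) ≤ 2048 := by exact_mod_cast hY1
  have hX0' : (0:ℝ) ≤ X0 := Nat.cast_nonneg _
  have hY0' : (0:ℝ) ≤ Y0 := Nat.cast_nonneg _
  simp only [boxSet, Finset.mem_union, Finset.mem_image, quadSet, Finset.mem_filter] at hP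
  rcases hP with (⟨p, ⟨_, hp⟩, rfl⟩ | ⟨p, ⟨_, hp⟩, rfl⟩) | (⟨p, ⟨_, hp⟩, rfl⟩ | ⟨p, ⟨_, hp⟩, rfl⟩)
  · simp only [m1]
    push_cast
    have h1 : (0:ℝ) ≤ p.1 := Nat.cast_nonneg _
    have h2 : (0:ℝ) ≤ p.2 := Nat.cast_nonneg _
    apply key_ineq hp
    · linarith
    · linarith
    · rw [Nat.cast_sub hX0]; push_cast; linarith
    · rw [Nat.cast_sub hY0]; push_cast; linarith
  · simp only [m2]
    push_cast
    have h1 : (0:ℝ) ≤ p.1 := Nat.cast_nonneg _
    have h2 : (0:ℝ) ≤ p.2 := Nat.cast_nonneg _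
    have e : (-(p.2:ℝ) - y)^2 = ((p.2:ℝ) + y)^2 := by ring
    rw [e]
    apply key_ineq hp
    · linarith
    · linarith
    · rw [Nat.cast_sub hX0]; push_cast; linarith
    · linarith
  · simp only [m3]
    push_cast
    have h1 : (0:ℝ) ≤ p.1 := Nat.cast_nonneg _
    have h2 : (0:ℝ) ≤ p.2 := Nat.cast_nonneg _
    have e : (-(p.1:ℝ) - x)^2 = ((p.1:ℝ) + x)^2 := by ring
    rw [e]
    apply key_ineq hp
    · linarith
    · linarith
    · linarith
    · rw [Nat.cast_sub hY0]; push_cast; linarith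
  · simp only [m4]
    push_cast
    have h1 : (0:ℝ) ≤ p.1 := Nat.cast_nonneg _
    have h2 : (0:ℝ) ≤ p.2 := Nat.cast_nonneg _
    have e : (-(p.2:ℝ) - y)^2 = ((p.2:ℝ) + y)^2 := by ring
    have e' : (-(p.1:ℝ) - x)^2 = ((p.1:ℝ) + x)^2 := by ring
    rw [e, e']
    apply key_ineq hp
    · linarith
    · linarith
    · linarith
    · linarith

/-- Lattice points strictly inside the circle with centre `(x, y)` and squared radius `ρ`. -/
def inPts (x y ρ : ℝ) : Set (ℤ × ℤ) := {P | ((P.1:ℝ) - x)^2 + ((P.2:ℝ) - y)^2 < ρ}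

theorem tot_le_encard {X0 X1 Y0 Y1 : ℕ} (hX0 : X0 ≤ 2048) (hX1 : X1 ≤ 2048)
    (hY0 : Y0 ≤ 2048) (hY1 : Y1 ≤ 2048) {x y : ℝ} (hx0 : (X0:ℝ) ≤ 2048*x)
    (hx1 : 2048 * x ≤ X1) (hy0 : (Y0:ℝ) ≤ 2048*y) (hy1 : 2048*y ≤ Y1) :
    ((tot X0 X1 Y0 Y1 : ℕ) : ℕ∞) ≤ (inPts x y (28561/8)).encard := by
  have hsub : (↑(boxSet X0 X1 Y0 Y1) : Set (ℤ × ℤ)) ⊆ inPts x y (28561/8) := by
    intro P hP
    exact boxSet_inside hX0 hX1 hY0 hY1 hx0 hx1 hy0 hy1 (Finset.mem_coe.mp hP)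
  calc ((tot X0 X1 Y0 Y1 : ℕ) : ℕ∞) ≤ (((boxSet X0 X1 Y0 Y1).card : ℕ) : ℕ∞) :=
        Nat.cast_le.mpr (tot_le_card X0 X1 Y0 Y1)
    _ = (↑(boxSet X0 X1 Y0 Y1) : Set (ℤ × ℤ)).encard := by
        rw [Set.encard_coe_eq_coe_finsetCard]
    _ ≤ _ := Set.encard_le_encard hsub

theorem check_sound : ∀ (k X Y : ℕ), X + 2^k ≤ 1024 → Y + 2^k ≤ 1024 →
    check k X Y (2^k) = true → ∀ x y : ℝ, (X:ℝ) ≤ 2048*x → 2048*x ≤ X + 2^k →
    (Y:ℝ) ≤ 2048*y → 2048*y ≤ Y + 2^k →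
    (11204 : ℕ∞) ≤ (inPts x y (28561/8)).encard ∨
      ((508:ℝ) ≤ 2048*x ∧ 2048*x ≤ 516 ∧ (508:ℝ) ≤ 2048*y ∧ 2048*y ≤ 516) := by
  intro k
  induction k with
  | zero =>
    intro X Y hX hY hc x y hx0 hx1 hy0 hy1
    rw [check, Bool.or_eq_true] at hc
    simp only [pow_zero] at *
    rcases hc with hc | hc
    · right
      simp only [central, Bool.and_eq_true] at hc
      obtain ⟨⟨⟨h1, h2⟩, h3⟩, h4⟩ := hc
      have h1 : (508:ℝ) ≤ X := by exact_mod_cast Nat.le_of_ble_eq_true h1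
      have h2 : (X:ℝ) + 1 ≤ 516 := by exact_mod_cast Nat.le_of_ble_eq_true h2
      have h3 : (508:ℝ) ≤ Y := by exact_mod_cast Nat.le_of_ble_eq_true h3
      have h4 : (Y:ℝ) + 1 ≤ 516 := by exact_mod_cast Nat.le_of_ble_eq_true h4
      refine ⟨by linarith, by linarith, by linarith, by linarith⟩
    · left
      have h := Nat.le_of_ble_eq_true hc
      have h5 := tot_le_encard (X0 := X) (X1 := X+1) (Y0 := Y) (Y1 := Y+1) (by omega) (by omega)
        (by omega) (by omega) hx0 (by push_cast; exact hx1) hy0 (by push_cast; exact hy1)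
      refine le_trans ?_ h5
      exact Nat.cast_le.mpr h
  | succ k ih =>
    intro X Y hX hY hc x y hx0 hx1 hy0 hy1
    rw [check, Bool.or_eq_true, Bool.or_eq_true] at hc
    have hp : (2:ℕ)^(k+1)/2 = 2^k := by
      rw [pow_succ]; simp
    have hp2 : (2:ℕ)^(k+1) = 2^k + 2^k := by ring
    have hpos : 0 < (2:ℕ)^k := by positivity
    have hX' : X + (2^k + 2^k) ≤ 1024 := by rw [← hp2]; exact hX
    have hY' : Y + (2^k + 2^k) ≤ 1024 := by rw [← hp2]; exact hY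
    have hX2 : X ≤ 1024 := by omega
    have hY2 : Y ≤ 1024 := by omega
    rcases hc with (hc | hc) | hc
    · right
      simp only [central, Bool.and_eq_true] at hc
      obtain ⟨⟨⟨h1, h2⟩, h3⟩, h4⟩ := hc
      have h1 : (508:ℝ) ≤ X := by exact_mod_cast Nat.le_of_ble_eq_true h1
      have h2 : (X:ℝ) + 2^(k+1) ≤ 516 := by exact_mod_cast Nat.le_of_ble_eq_true h2
      have h3 : (508:ℝ) ≤ Y := by exact_mod_cast Nat.le_of_ble_eq_true h3
      have h4 : (Y:ℝ) + 2^(k+1) ≤ 516 := by exact_mod_cast Nat.le_of_ble_eq_true h4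
      refine ⟨by linarith, by linarith, by linarith, by linarith⟩
    · left
      have h := Nat.le_of_ble_eq_true hc
      have h5 := tot_le_encard (X0 := X) (X1 := X+2^(k+1)) (Y0 := Y) (Y1 := Y+2^(k+1)) (by omega)
        (by omega) (by omega) (by omega) hx0 (by push_cast; exact hx1) hy0
        (by push_cast; exact hy1)
      refine le_trans ?_ h5
      exact Nat.cast_le.mpr h
    · rw [hp] at hc
      simp only [Bool.and_eq_true] at hc
      obtain ⟨⟨⟨h1, h2⟩, h3⟩, h4⟩ := hc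
      have e : (2:ℝ)^(k+1) = 2^k + 2^k := by ring
      rw [e] at hx1 hy1
      by_cases hxm : 2048 * x ≤ X + 2^k
      · by_cases hym : 2048 * y ≤ Y + 2^k
        · exact ih X Y (by omega) (by omega) h1 x y hx0 hxm hy0 hym
        · push Not at hym
          exact ih X (Y+2^k) (by omega) (by omega) h3 x y hx0 hxm (by push_cast; linarith)
            (by push_cast; linarith)
      · push Not at hxm
        by_cases hym : 2048 * y ≤ Y + 2^k
        · exact ih (X+2^k) Y (by omega) (by omega) h2 x y (by push_cast; linarith)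
            (by push_cast; linarith) hy0 hym
        · push Not at hym
          exact ih (X+2^k) (Y+2^k) (by omega) (by omega) h4 x y (by push_cast; linarith)
            (by push_cast; linarith) (by push_cast; linarith) (by push_cast; linarith)

theorem cell_cover (x y : ℝ) (hx0 : 0 ≤ x) (hx1 : x ≤ 1/2) (hy0 : 0 ≤ y) (hy1 : y ≤ 1/2) :
    (11204 : ℕ∞) ≤ (inPts x y (28561/8)).encard ∨
      ((508:ℝ) ≤ 2048*x ∧ 2048*x ≤ 516 ∧ (508:ℝ) ≤ 2048*y ∧ 2048*y ≤ 516) := by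
  have h := check_sound 10 0 0 (by norm_num) (by norm_num) check_true x y
  apply h
  · push_cast; linarith
  · push_cast; linarith
  · push_cast; linarith
  · push_cast; linarith

end Pool.Agent.Lib.MP_c7ed95_nt
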