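import Mathlib
import Pool.Agent.Lib.MP_c7ed95_nt.Count

/-!
The local analysis at the centre `(1/4, 1/4)`, the reduction of an arbitrary centre to the cell
`[0,1/2] × [0,1/2]`, and the exact counts at the centre `(1/4, 1/4)`.
-/

set_option autoImplicit false
set_option maxRecDepth 100000

namespace Pool.Agent.Lib.MP_c7ed95_nt

/-- The lattice points with `(4a-1)^2 + (4b-1)^2 < 57122`. -/
noncomputable def inner : Finset (ℤ × ℤ) :=
  (Finset.Icc (-60:ℤ) 60 ×ˢ Finset.Icc (-60:ℤ) 60).filter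
    (fun P : ℤ × ℤ => ((4*P.1-1)^2 + (4*P.2-1)^2 < 57122))

theorem inner_card : inner.card = 11202 := by decide +kernel

/-- The five lattice points on the circle. -/
def five : Finset (ℤ × ℤ) := {(60,0),(0,60),(23,-55),(-55,23),(-42,-42)}

theorem five_card : five.card = 5 := by decide

theorem five_eq : ((Finset.Icc (-60:ℤ) 60 ×ˢ Finset.Icc (-60:ℤ) 60).filter
    (fun P : ℤ × ℤ => ((4*P.1-1)^2 + (4*P.2-1)^2 = 57122))) = five := by decide +kernel

theorem range_of_le {a b : ℤ} (h : (4*a-1)^2 + (4*b-1)^2 ≤ 57122) :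
    (a, b) ∈ (Finset.Icc (-60:ℤ) 60 ×ˢ Finset.Icc (-60:ℤ) 60) := by
  have h1 : (4*a-1)^2 < 240^2 := by nlinarith [sq_nonneg (4*b-1)]
  have h2 : (4*b-1)^2 < 240^2 := by nlinarith [sq_nonneg (4*a-1)]
  have h3 := abs_lt_of_sq_lt_sq h1 (by norm_num)
  have h4 := abs_lt_of_sq_lt_sq h2 (by norm_num)
  rw [abs_lt] at h3 h4
  simp only [Finset.mem_product, Finset.mem_Icc]
  omega

theorem mem_inner {P : ℤ × ℤ} : P ∈ inner ↔ (4*P.1-1)^2 + (4*P.2-1)^2 < 57122 := by
  constructor
  · intro h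
    exact (Finset.mem_filter.mp h).2
  · intro h
    exact Finset.mem_filter.mpr ⟨range_of_le h.le, h⟩

theorem mem_five {P : ℤ × ℤ} : P ∈ five ↔ (4*P.1-1)^2 + (4*P.2-1)^2 = 57122 := by
  rw [← five_eq]
  constructor
  · intro h
    exact (Finset.mem_filter.mp h).2
  · intro h
    exact Finset.mem_filter.mpr ⟨range_of_le h.le, h⟩

theorem sq_expand (a b : ℤ) : ((a:ℝ) - 1/4)^2 + ((b:ℝ) - 1/4)^2
    = (((4*a-1)^2 + (4*b-1)^2 : ℤ) : ℝ) / 16 := by
  push_cast; ring

theorem inPts_center : inPts (1/4) (1/4) (28561/8) = ↑inner := by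
  ext ⟨a, b⟩
  simp only [inPts, Set.mem_ofPred_eq, Finset.mem_coe, mem_inner]
  rw [sq_expand, div_lt_iff₀ (by norm_num)]
  constructor
  · intro h
    have : (((4*a-1)^2 + (4*b-1)^2 : ℤ) : ℝ) < ((57122 : ℤ) : ℝ) := by
      push_cast at h ⊢; linarith
    exact Int.cast_lt.mp this
  · intro h
    have : (((4*a-1)^2 + (4*b-1)^2 : ℤ) : ℝ) < ((57122 : ℤ) : ℝ) := Int.cast_lt.mpr h
    push_cast at this ⊢; linarith

theorem onPts_center : {P : ℤ × ℤ | ((P.1:ℝ) - 1/4)^2 + ((P.2:ℝ) - 1/4)^2 = 28561/8} = ↑five := by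
  ext ⟨a, b⟩
  simp only [Set.mem_ofPred_eq, Finset.mem_coe, mem_five]
  rw [sq_expand, div_eq_iff (by norm_num)]
  constructor
  · intro h
    have : (((4*a-1)^2 + (4*b-1)^2 : ℤ) : ℝ) = ((57122 : ℤ) : ℝ) := by
      push_cast at h ⊢; linarith
    exact Int.cast_inj.mp this
  · intro h
    have : (((4*a-1)^2 + (4*b-1)^2 : ℤ) : ℝ) = ((57122 : ℤ) : ℝ) := by exact_mod_cast h
    push_cast at this ⊢; linarith

theorem encard_center : (inPts (1/4) (1/4) (28561/8)).encard = 11202 := by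
  rw [inPts_center, Set.encard_coe_eq_coe_finsetCard, inner_card]
  rfl

theorem exists_core : ∃ S : Finset (ℤ × ℤ), 11202 ≤ S.card ∧ ∀ x y : ℝ, (508:ℝ) ≤ 2048*x →
    2048*x ≤ 516 → (508:ℝ) ≤ 2048*y → 2048*y ≤ 516 → ∀ P ∈ S, P ∈ inPts x y (28561/8) := by
  refine ⟨boxSet 508 516 508 516, ?_, ?_⟩
  · exact le_trans (Nat.le_of_ble_eq_true tot_central) (tot_le_card 508 516 508 516)
  · intro x y h1 h2 h3 h4 P hP
    have e1 : ((508:ℕ):ℝ) = 508 := by norm_num
    have e2 : ((516:ℕ):ℝ) = 516 := by norm_num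
    exact boxSet_inside (by norm_num) (by norm_num) (by norm_num) (by norm_num)
      (e1 ▸ h1) (e2 ▸ h2) (e1 ▸ h3) (e2 ▸ h4) hP

/-- Two further points of the circle become interior. -/
theorem two_more {x y : ℝ} (h1 : (508:ℝ) ≤ 2048*x) (h2 : 2048*x ≤ 516) (h3 : (508:ℝ) ≤ 2048*y)
    (h4 : 2048*y ≤ 516) {P Q : ℤ × ℤ} (hP : P ∈ five) (hQ : Q ∈ five) (hPQ : P ≠ Q)
    (hP' : P ∈ inPts x y (28561/8)) (hQ' : Q ∈ inPts x y (28561/8)) :
    (11204 : ℕ∞) ≤ (inPts x y (28561/8)).encard := by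
  obtain ⟨S, hcard, hS⟩ := exists_core
  have hS0 : ∀ R ∈ S, R ∉ five := by
    intro R hR hR5
    have hin : R ∈ inPts (1/4) (1/4) (28561/8) :=
      hS (1/4) (1/4) (by norm_num) (by norm_num) (by norm_num) (by norm_num) R hR
    rw [inPts_center, Finset.mem_coe, mem_inner] at hin
    rw [mem_five] at hR5
    omega
  have hPS : P ∉ S := fun h => hS0 P h hP
  have hQS : Q ∉ S := fun h => hS0 Q h hQ
  have hc : (insert P (insert Q S)).card = S.card + 2 := by
    rw [Finset.card_insert_of_notMem, Finset.card_insert_of_notMem hQS]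
    rw [Finset.mem_insert]
    push Not
    exact ⟨hPQ, hPS⟩
  have hsub : (↑(insert P (insert Q S)) : Set (ℤ × ℤ)) ⊆ inPts x y (28561/8) := by
    intro R hR
    rw [Finset.mem_coe, Finset.mem_insert, Finset.mem_insert] at hR
    rcases hR with rfl | rfl | hR
    · exact hP'
    · exact hQ'
    · exact hS x y h1 h2 h3 h4 R hR
  have := Set.encard_le_encard hsub
  rw [Set.encard_coe_eq_coe_finsetCard, hc] at this
  refine le_trans ?_ this
  have h5 : 11204 ≤ S.card + 2 := by omega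
  exact Nat.cast_le.mpr h5

theorem central_case {x y : ℝ} (h1 : (508:ℝ) ≤ 2048*x) (h2 : 2048*x ≤ 516)
    (h3 : (508:ℝ) ≤ 2048*y) (h4 : 2048*y ≤ 516) :
    (11204 : ℕ∞) ≤ (inPts x y (28561/8)).encard ∨ (x = 1/4 ∧ y = 1/4) := by
  obtain ⟨p, hp⟩ : ∃ p, p = x - 1/4 := ⟨_, rfl⟩
  obtain ⟨q, hq⟩ : ∃ q, q = y - 1/4 := ⟨_, rfl⟩
  have hx : x = 1/4 + p := by rw [hp]; ring
  have hy : y = 1/4 + q := by rw [hq]; ring
  have hp1 : -(1/512) ≤ p := by rw [hp]; linarith
  have hp2 : p ≤ 1/512 := by rw [hp]; linarith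
  have hq1 : -(1/512) ≤ q := by rw [hq]; linarith
  have hq2 : q ≤ 1/512 := by rw [hq]; linarith
  have A1 : (60, 0) ∈ five := by decide
  have A2 : (0, 60) ∈ five := by decide
  have A3 : (23, -55) ∈ five := by decide
  have A4 : (-55, 23) ∈ five := by decide
  have A5 : (-42, -42) ∈ five := by decide
  have B1 : 2*(p^2+q^2) < 239*p - q → ((60, 0) : ℤ × ℤ) ∈ inPts x y (28561/8) := by
    intro h
    simp only [inPts, Set.mem_ofPred_eq, hx, hy]; push_cast; nlinarith
  have B2 : 2*(p^2+q^2) < 239*q - p → ((0, 60) : ℤ × ℤ) ∈ inPts x y (28561/8) := by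
    intro h
    simp only [inPts, Set.mem_ofPred_eq, hx, hy]; push_cast; nlinarith
  have B3 : 2*(p^2+q^2) < 91*p - 221*q → ((23, -55) : ℤ × ℤ) ∈ inPts x y (28561/8) := by
    intro h
    simp only [inPts, Set.mem_ofPred_eq, hx, hy]; push_cast; nlinarith
  have B4 : 2*(p^2+q^2) < 91*q - 221*p → ((-55, 23) : ℤ × ℤ) ∈ inPts x y (28561/8) := by
    intro h
    simp only [inPts, Set.mem_ofPred_eq, hx, hy]; push_cast; nlinarith
  have B5 : 2*(p^2+q^2) < -169*p - 169*q → ((-42, -42) : ℤ × ℤ) ∈ inPts x y (28561/8) := by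
    intro h
    simp only [inPts, Set.mem_ofPred_eq, hx, hy]; push_cast; nlinarith
  have sqp : p^2 ≤ |p|/512 := by
    have : |p| ≤ 1/512 := abs_le.mpr ⟨hp1, hp2⟩
    rw [← sq_abs]; nlinarith [abs_nonneg p]
  have sqq : q^2 ≤ |q|/512 := by
    have : |q| ≤ 1/512 := abs_le.mpr ⟨hq1, hq2⟩
    rw [← sq_abs]; nlinarith [abs_nonneg q]
  by_cases h0 : p = 0 ∧ q = 0
  · right
    rw [hx, hy, h0.1, h0.2]; norm_num
  left
  have hne : 0 < |p| + |q| := by
    by_contra hcon
    push Not at hcon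
    have hp0 : |p| = 0 := le_antisymm (by linarith [abs_nonneg q]) (abs_nonneg p)
    have hq0 : |q| = 0 := le_antisymm (by linarith [abs_nonneg p]) (abs_nonneg q)
    exact h0 ⟨abs_eq_zero.mp hp0, abs_eq_zero.mp hq0⟩
  rcases le_total 0 p with hp0 | hp0
  · rw [abs_of_nonneg hp0] at sqp hne
    rcases le_total 0 q with hq0 | hq0
    · rw [abs_of_nonneg hq0] at sqq hne
      rcases le_total q p with hqp | hqp
      · rcases le_total (p/4) q with h | h
        · exact two_more h1 h2 h3 h4 A1 A2 (by decide) (B1 (by linarith)) (B2 (by linarith))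
        · exact two_more h1 h2 h3 h4 A1 A3 (by decide) (B1 (by linarith)) (B3 (by linarith))
      · rcases le_total (q/4) p with h | h
        · exact two_more h1 h2 h3 h4 A1 A2 (by decide) (B1 (by linarith)) (B2 (by linarith))
        · exact two_more h1 h2 h3 h4 A2 A4 (by decide) (B2 (by linarith)) (B4 (by linarith))
    · rw [abs_of_nonpos hq0] at sqq hne
      exact two_more h1 h2 h3 h4 A1 A3 (by decide) (B1 (by linarith)) (B3 (by linarith))
  · rw [abs_of_nonpos hp0] at sqp hne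
    rcases le_total 0 q with hq0 | hq0
    · rw [abs_of_nonneg hq0] at sqq hne
      exact two_more h1 h2 h3 h4 A2 A4 (by decide) (B2 (by linarith)) (B4 (by linarith))
    · rw [abs_of_nonpos hq0] at sqq hne
      rcases le_total q p with hqp | hqp
      · exact two_more h1 h2 h3 h4 A5 A3 (by decide) (B5 (by linarith)) (B3 (by linarith))
      · exact two_more h1 h2 h3 h4 A5 A4 (by decide) (B5 (by linarith)) (B4 (by linarith))

/-- The cell statement. -/
theorem cell_main (x y : ℝ) (hx0 : 0 ≤ x) (hx1 : x ≤ 1/2) (hy0 : 0 ≤ y) (hy1 : y ≤ 1/2) :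
    (11204 : ℕ∞) ≤ (inPts x y (28561/8)).encard ∨ (x = 1/4 ∧ y = 1/4) := by
  rcases cell_cover x y hx0 hx1 hy0 hy1 with h | ⟨h1, h2, h3, h4⟩
  · exact Or.inl h
  · exact central_case h1 h2 h3 h4

/-- Every real number is a signed translate of its distance to the nearest integer. -/
theorem exists_reduce (x : ℝ) : ∃ (m ε : ℤ), (ε = 1 ∨ ε = -1) ∧ 0 ≤ (ε:ℝ) * (x - m) ∧
    (ε:ℝ) * (x - m) ≤ 1/2 := by
  have h := abs_sub_round x
  rcases le_total 0 (x - round x) with h0 | h0
  · refine ⟨round x, 1, Or.inl rfl, ?_, ?_⟩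
    · simpa using h0
    · rw [abs_of_nonneg h0] at h
      simpa using h
  · refine ⟨round x, -1, Or.inr rfl, ?_, ?_⟩
    · push_cast; linarith
    · rw [abs_of_nonpos h0] at h
      push_cast; linarith

theorem encard_reduce (x y ρ : ℝ) (m1 m2 ε1 ε2 : ℤ) (h1 : ε1 = 1 ∨ ε1 = -1)
    (h2 : ε2 = 1 ∨ ε2 = -1) :
    (inPts x y ρ).encard = (inPts ((ε1:ℝ) * (x - m1)) ((ε2:ℝ) * (y - m2)) ρ).encard := by
  have e1 : ε1 * ε1 = 1 := by rcases h1 with rfl | rfl <;> norm_num
  have e2 : ε2 * ε2 = 1 := by rcases h2 with rfl | rfl <;> norm_num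
  let φ : (ℤ × ℤ) ≃ (ℤ × ℤ) :=
    { toFun := fun P => (ε1 * (P.1 - m1), ε2 * (P.2 - m2))
      invFun := fun P => (ε1 * P.1 + m1, ε2 * P.2 + m2)
      left_inv := by
        rintro ⟨a, b⟩
        ext
        · change ε1 * (ε1 * (a - m1)) + m1 = a
          rw [← mul_assoc, e1]; ring
        · change ε2 * (ε2 * (b - m2)) + m2 = b
          rw [← mul_assoc, e2]; ring
      right_inv := by
        rintro ⟨a, b⟩
        ext
        · change ε1 * (ε1 * a + m1 - m1) = a
          rw [add_sub_cancel_right, ← mul_assoc, e1, one_mul]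
        · change ε2 * (ε2 * b + m2 - m2) = b
          rw [add_sub_cancel_right, ← mul_assoc, e2, one_mul] }
  have hset : inPts x y ρ = φ ⁻¹' (inPts ((ε1:ℝ) * (x - m1)) ((ε2:ℝ) * (y - m2)) ρ) := by
    ext ⟨a, b⟩
    simp only [inPts, Set.mem_ofPred_eq, Set.mem_preimage, φ, Equiv.coe_fn_mk]
    push_cast
    have E1 : ((ε1:ℝ) * ((a:ℝ) - m1) - ε1 * (x - m1))^2 = ((a:ℝ) - x)^2 := by
      rcases h1 with rfl | rfl <;> push_cast <;> ring
    have E2 : ((ε2:ℝ) * ((b:ℝ) - m2) - ε2 * (y - m2))^2 = ((b:ℝ) - y)^2 := by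
      rcases h2 with rfl | rfl <;> push_cast <;> ring
    rw [E1, E2]
  rw [hset]
  rw [← Set.InjOn.encard_image (f := φ) φ.injective.injOn, Set.image_preimage_eq _ φ.surjective]

/-- Global statement: every circle of radius at least `R` has at least `11204` interior lattice
points, except that those with radius exactly `R` may have exactly `11202`. -/
theorem global_main (x y ρ : ℝ) (hρ : 28561/8 ≤ ρ) :
    (11204 : ℕ∞) ≤ (inPts x y ρ).encard ∨ (ρ = 28561/8 ∧ (inPts x y ρ).encard = 11202) := by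
  obtain ⟨m1, ε1, he1, hx0, hx1⟩ := exists_reduce x
  obtain ⟨m2, ε2, he2, hy0, hy1⟩ := exists_reduce y
  rw [encard_reduce x y ρ m1 m2 ε1 ε2 he1 he2]
  rcases cell_main _ _ hx0 hx1 hy0 hy1 with h | ⟨hx, hy⟩
  · left
    refine h.trans (Set.encard_le_encard ?_)
    intro P hP
    exact lt_of_lt_of_le hP hρ
  · rw [hx, hy]
    rcases hρ.lt_or_eq with hlt | heq
    · left
      have hsub : (↑(inner ∪ five) : Set (ℤ × ℤ)) ⊆ inPts (1/4) (1/4) ρ := by
        intro P hP
        rw [Finset.mem_coe, Finset.mem_union] at hP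
        rcases hP with hP | hP
        · have : P ∈ inPts (1/4) (1/4) (28561/8) := by
            rw [inPts_center]; exact hP
          exact lt_trans this hlt
        · have : P ∈ {P : ℤ × ℤ | ((P.1:ℝ) - 1/4)^2 + ((P.2:ℝ) - 1/4)^2 = 28561/8} := by
            rw [onPts_center]; exact hP
          exact lt_of_eq_of_lt this hlt
      have hc : (inner ∪ five).card = 11207 := by
        rw [Finset.card_union_of_disjoint, inner_card, five_card]
        rw [Finset.disjoint_left]
        intro P hP hP5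
        rw [mem_inner] at hP
        rw [mem_five] at hP5
        omega
      have := Set.encard_le_encard hsub
      rw [Set.encard_coe_eq_coe_finsetCard, hc] at this
      refine le_trans ?_ this
      exact Nat.cast_le.mpr (by norm_num : 11204 ≤ 11207)
    · right
      refine ⟨heq.symm, ?_⟩
      rw [← heq]
      exact encard_center

/-- For small `t > 0` the circle with centre `(1/4 - t, 1/4 - t)` and squared radius
`28561/8 - 100 t` has exactly `11203` interior lattice points. -/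
theorem near_count (t : ℝ) (ht0 : 0 < t) (ht1 : t ≤ 1/1000) :
    (inPts (1/4 - t) (1/4 - t) (28561/8 - 100*t)).encard = 11203 := by
  have hset : inPts (1/4 - t) (1/4 - t) (28561/8 - 100*t) =
      (↑(insert (-42, -42) inner) : Set (ℤ × ℤ)) := by
    ext ⟨a, b⟩
    rw [Finset.mem_coe, Finset.mem_insert, mem_inner]
    simp only [inPts, Set.mem_ofPred_eq]
    obtain ⟨α, hα⟩ : ∃ α : ℤ, α = 4*a-1 := ⟨_, rfl⟩
    obtain ⟨β, hβ⟩ : ∃ β : ℤ, β = 4*b-1 := ⟨_, rfl⟩
    have hαr : (a:ℝ) = (α + 1)/4 := by rw [hα]; push_cast; ring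
    have hβr : (b:ℝ) = (β + 1)/4 := by rw [hβ]; push_cast; ring
    rw [hαr, hβr, ← hα, ← hβ]
    have key : ((((α:ℝ) + 1)/4 - (1/4 - t))^2 + (((β:ℝ) + 1)/4 - (1/4 - t))^2 <
        28561/8 - 100*t) ↔ ((α:ℝ)^2 + (β:ℝ)^2 + 8*t*(α+β) + 32*t^2 < 57122 - 1600*t) := by
      constructor <;> intro h <;> nlinarith
    rw [key]
    rcases lt_trichotomy (α^2 + β^2) 57122 with hlt | heq | hgt
    · -- inner points stay inside
      have hmod : α^2 + β^2 ≤ 57114 := by
        have h8 : (α^2 + β^2) % 8 = 2 := by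
          rw [hα, hβ]
          have : (4*a-1)^2 + (4*b-1)^2 = 8*(2*a^2 - a + 2*b^2 - b) + 2 := by ring
          rw [this]; omega
        omega
      have hmodr : (α:ℝ)^2 + (β:ℝ)^2 ≤ 57114 := by exact_mod_cast hmod
      constructor
      · intro _; right; exact hlt
      · intro _
        have h1 : (α:ℝ) ≤ 239 := by nlinarith [sq_nonneg ((α:ℝ)), sq_nonneg ((β:ℝ))]
        have h2 : (β:ℝ) ≤ 239 := by nlinarith [sq_nonneg ((α:ℝ)), sq_nonneg ((β:ℝ))]
        have h3 : 8*t*(α+β) ≤ 8*t*478 := by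
          apply mul_le_mul_of_nonneg_left _ (by positivity)
          linarith
        nlinarith
    · have hmem : (a, b) ∈ five := by
        rw [mem_five]
        change (4*a-1)^2 + (4*b-1)^2 = 57122
        rw [← hα, ← hβ]; exact heq
      have heqr : (α:ℝ)^2 + (β:ℝ)^2 = 57122 := by exact_mod_cast heq
      rw [heqr]
      simp only [five, Finset.mem_insert, Finset.mem_singleton, Prod.mk.injEq] at hmem
      rcases hmem with ⟨ha, hb⟩ | ⟨ha, hb⟩ | ⟨ha, hb⟩ | ⟨ha, hb⟩ | ⟨ha, hb⟩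
      all_goals
        subst ha; subst hb
        rw [hα, hβ]
        constructor
        · intro h
          push_cast at h
          first
            | (left; rfl)
            | (exfalso; nlinarith)
        · intro h
          rcases h with h | h
          · simp only [Prod.mk.injEq] at h
            first
              | (exfalso; omega)
              | (push_cast; nlinarith)
          · exfalso; norm_num at h
    · have hmod : 57130 ≤ α^2 + β^2 := by
        have h8 : (α^2 + β^2) % 8 = 2 := by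
          rw [hα, hβ]
          have : (4*a-1)^2 + (4*b-1)^2 = 8*(2*a^2 - a + 2*b^2 - b) + 2 := by ring
          rw [this]; omega
        omega
      have hmodr : (57130:ℝ) ≤ (α:ℝ)^2 + (β:ℝ)^2 := by exact_mod_cast hmod
      constructor
      · intro h
        exfalso
        have h1 : 0 ≤ ((α:ℝ) + 169)^2 + ((β:ℝ) + 169)^2 := by positivity
        have h2 : -((α:ℝ)^2 + (β:ℝ)^2 + 57122) ≤ 338 * (α + β) := by nlinarith
        nlinarith
      · intro h
        exfalso
        rcases h with h | h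
        · simp only [Prod.mk.injEq] at h
          obtain ⟨ha, hb⟩ := h
          subst ha; subst hb
          rw [hα, hβ] at hgt
          norm_num at hgt
        · omega
  rw [hset, Set.encard_coe_eq_coe_finsetCard, Finset.card_insert_of_notMem, inner_card]
  · rfl
  · rw [mem_inner]; norm_num

end Pool.Agent.Lib.MP_c7ed95_nt
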